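import Pool.Agent.Helper79.KL.Label

set_option autoImplicit false

/-!
Project KL (MP_0b9e0b_ag), module KL-11: the labels `x j = 0` and `x j = ∞`.
-/

namespace Pool.Agent.Helper79.KL

open Pool.Agent.Helper16 Pool.Agent.Helper1.KL Pool.Agent.HC

/-- At a zero or pole of `s` the element `η` has a pole. -/
theorem label_eta {k : Type} [Field k] {M : Type} [Field M] [Algebra (RatFunc k) M]
    (v : Place (RatFunc k) M) {p : ℕ} {β : k} (hβ : β ≠ 0) {s η : M} (hs : v.ord s ≠ 0)
    (hη : η ^ p - η = algebraMap (RatFunc k) M RatFunc.X * s +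
      algebraMap (RatFunc k) M (RatFunc.C β) * s⁻¹) : η ∉ v.ring := by
  intro hmem
  have hs0 : s ≠ 0 := by
    rintro rfl
    exact hs v.ord_zero
  have h1 : v.val (algebraMap (RatFunc k) M RatFunc.X * s) = v.val s := by
    rw [map_mul, v.triv _ RatFunc.X_ne_zero, one_mul]
  have h2 : v.val (algebraMap (RatFunc k) M (RatFunc.C β) * s⁻¹) = (v.val s)⁻¹ := by
    rw [map_mul, v.triv _ ((map_ne_zero_iff _ RatFunc.C_injective).2 hβ), one_mul, map_inv₀]
  have h3 : v.val (η ^ p - η) ≤ 1 := sub_mem (pow_mem hmem p) hmem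
  rw [hη] at h3
  have hne : v.val s ≠ 1 := fun h => hs ((v.ord_eq_zero_iff hs0).2 h)
  have hpos : 0 < v.val s := zero_lt_iff.2 (by simpa using hs0)
  rcases lt_or_gt_of_ne hne with hlt | hgt
  · have h4 : 1 < (v.val s)⁻¹ := (one_lt_inv₀ hpos).2 hlt
    rw [Valuation.map_add_eq_of_lt_right _ (by rw [h1, h2]; exact hlt.trans h4), h2] at h3
    exact absurd h3 (not_le.2 h4)
  · have h4 : (v.val s)⁻¹ < 1 := inv_lt_one_of_one_lt₀ hgt
    rw [Valuation.map_add_eq_of_lt_left _ (by rw [h1, h2]; exact h4.trans hgt), h1] at h3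
    exact absurd h3 (not_le.2 hgt)

open scoped Classical in
/-- The moving point. -/
noncomputable def movePt {n : ℕ} {M : Type} [Field M] (w : Fin n ⊕ Fin n → Option M) (j : Fin n)
    (s η : M) : Fin n ⊕ Fin n → Option M :=
  fun i => if i = Sum.inl j then some s else if i = Sum.inr j then some η else w i

/-- The specialisation of the moving point. -/
theorem label_spec {F M M₀ : Type} [Field F] [Field M] [Field M₀] [Algebra F M] [Algebra F M₀]
    [Algebra M₀ M] [IsScalarTower F M₀ M] {n : ℕ} (w : Fin n ⊕ Fin n → Option M₀) (j : Fin n)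
    (s η : M) (v : Place F M) (hη : η ∉ v.ring)
    (ρ : M₀ →ₐ[F] v.resField)
    (hρ : ∀ a, algebraMap M₀ M a ∈ v.ring ∧ ρ a = v.res (algebraMap M₀ M a))
    (hwj : w (Sum.inr j) = none)
    (hs : (v.val s < 1 ∧ w (Sum.inl j) = some 0) ∨ (1 < v.val s ∧ w (Sum.inl j) = none))
    (w' : Fin n ⊕ Fin n → Option M₀) (hw' : ∀ i, i ≠ Sum.inl j → w' i = w i) :
    spec v (movePt (fun i => (w' i).map (algebraMap M₀ M)) j s η) =
      fun i => (w i).map ρ := by
  funext i
  unfold spec movePt
  by_cases h1 : i = Sum.inl j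
  · subst h1
    rw [if_pos rfl]
    rcases hs with ⟨h2, h3⟩ | ⟨h2, h3⟩
    · have h4 : s ∈ v.ring := h2.le
      rw [h3, Option.bind_some, if_pos h4, (v.res_eq_zero_iff h4).2 h2, Option.map_some, map_zero]
    · have h4 : s ∉ v.ring := fun h => absurd h (not_le.2 h2)
      rw [h3, Option.bind_some, if_neg h4, Option.map_none]
  · rw [if_neg h1]
    by_cases h2 : i = Sum.inr j
    · subst h2
      rw [if_pos rfl, hwj, Option.bind_some, if_neg hη, Option.map_none]
    · rw [if_neg h2]
      simp only [hw' i h1]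
      cases hw : w i with
      | none => rfl
      | some a =>
        rw [Option.map_some, Option.bind_some, if_pos (hρ a).1, Option.map_some, (hρ a).2]

/-- The deformation over abstract fields. -/
theorem label_core {k : Type} [Field k] (p : ℕ) [Fact p.Prime] [CharP k p] {n : ℕ}
    (b : Fin n → k) (r : ℕ) (hb : ∀ i, b i ≠ 0) (hPos : ModPos k p b r) {M₀ M : Type}
    [Field M₀] [Field M] [Algebra (RatFunc k) M₀] [Algebra (RatFunc k) M] [Algebra M₀ M]
    [IsScalarTower (RatFunc k) M₀ M] (hess : Algebra.EssFiniteType (RatFunc k) M)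
    (hr : Algebra.trdeg (RatFunc k) M₀ = r) (htrM : Algebra.trdeg (RatFunc k) M = r + 1)
    (w : Fin n ⊕ Fin n → Option M₀) (hXVw : XV p b M₀ w)
    (htrw : Algebra.trdeg (RatFunc k) (fld (RatFunc k) w) = r) (j : Fin n)
    (hwl : w (Sum.inl j) = some 0) (hwr : w (Sum.inr j) = none) (s' η' : M)
    (hsT : Transcendental M₀ s')
    (hηs : η' ^ p - η' = algebraMap (RatFunc k) M RatFunc.X * s' +
      algebraMap (RatFunc k) M (RatFunc.C (b j)) * s'⁻¹) :
    cl p b r w ∈ Submodule.span ℚ {cl p b r (Function.update w (Sum.inl j) none)} := by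
  have hs'0 : s' ≠ 0 := by
    rintro rfl
    exact hsT isAlgebraic_zero
  set w₁ := Function.update w (Sum.inl j) none with hw₁
  set zM := movePt (fun i => (w i).map (algebraMap M₀ M)) j s' η' with hzM
  have hXVM : XV p b M zM := by
    intro i
    by_cases h : i = j
    · subst h
      right
      refine ⟨s', η', if_pos rfl, ?_, ?_⟩
      · rw [hzM]
        unfold movePt
        rw [if_neg (by simp), if_pos rfl]
      · rw [hηs]
        field_simp
    · have h1 := hXVw i
      have h2 := (label_curve (p := p) (algebraMap M₀ M)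
        (algebraMap (RatFunc k) M₀ RatFunc.X) (algebraMap (RatFunc k) M₀ (RatFunc.C (b i)))
        (w (Sum.inl i)) (w (Sum.inr i))).2 h1
      rw [← IsScalarTower.algebraMap_apply, ← IsScalarTower.algebraMap_apply] at h2
      have h3 : zM (Sum.inl i) = (w (Sum.inl i)).map (algebraMap M₀ M) := by
        rw [hzM]
        unfold movePt
        rw [if_neg (fun h' => h (Sum.inl_injective h')), if_neg (by simp)]
      have h4 : zM (Sum.inr i) = (w (Sum.inr i)).map (algebraMap M₀ M) := by
        rw [hzM]
        unfold movePt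
        rw [if_neg (by simp), if_neg (fun h' => h (Sum.inr_injective h'))]
      rw [h3, h4]
      exact h2
  -- the places
  have hspec : ∀ v : Place (RatFunc k) M, v.ord s' ≠ 0 →
      (∀ a : M₀, a ≠ 0 → v.val (algebraMap M₀ M a) = 1) →
      ∃ ρ : M₀ →ₐ[RatFunc k] v.resField,
        (0 < v.ord s' → spec v zM = fun i => (w i).map ρ) ∧
        (v.ord s' < 0 → spec v zM = fun i => (w₁ i).map ρ) := by
    intro v hv htriv
    obtain ⟨ρ, hρ⟩ := label_resHom v htriv
    have hη1 := label_eta v (hb j) hv hηs
    refine ⟨ρ, fun h => ?_, fun h => ?_⟩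
    · exact label_spec w j s' η' v hη1 ρ hρ hwr (Or.inl ⟨(v.ord_pos_iff hs'0).1 h, hwl⟩) w
        fun _ _ => rfl
    · refine label_spec w₁ j s' η' v hη1 ρ hρ ?_ (Or.inr ⟨(v.ord_neg_iff hs'0).1 h, ?_⟩) w
        fun i hi => ?_
      · rw [hw₁, Function.update_of_ne (by simp), hwr]
      · rw [hw₁, Function.update_self]
      · rw [hw₁, Function.update_of_ne hi]
  have hcl1 : ∀ (v : Place (RatFunc k) M) (ρ : M₀ →ₐ[RatFunc k] v.resField),
      spec v zM = (fun i => (w i).map ρ) → SH p b r {0} (spec v zM) = cl p b r w := by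
    intro v ρ h
    rw [label_SH, h]
    unfold cl cls
    rw [label_key_map ρ w]
  have hcl2 : ∀ (v : Place (RatFunc k) M) (ρ : M₀ →ₐ[RatFunc k] v.resField),
      spec v zM = (fun i => (w₁ i).map ρ) →
      SH p b r {0} (spec v zM) = cl p b r w₁ := by
    intro v ρ h
    rw [label_SH, h]
    unfold cl cls
    rw [label_key_map ρ w₁]
  refine hPos M hess htrM zM hXVM s' hs'0 {0} _ _ ?_ ?_
  · intro v hv hXV htr
    have hη1 := label_eta v (hb j) hv hηs
    have htriv : ∀ a : M₀, a ≠ 0 → v.val (algebraMap M₀ M a) = 1 := by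
      let T : Type := {a : M₀ // (∃ i, w i = some a) ∧ v.val (algebraMap M₀ M a) ≤ 1}
      refine label_triv v hr (ι := T) (fun a => a.1) (fun a => a.2.2) ?_
      rw [← htr]
      refine trdeg_le_of_inj (IntermediateField.inclusion ?_)
        (IntermediateField.inclusion_injective _)
      unfold fld
      rw [IntermediateField.adjoin_le_iff]
      rintro c ⟨i, hi⟩
      rw [SetLike.mem_coe]
      unfold spec at hi
      by_cases h1 : i = Sum.inl j
      · subst h1
        have h2 : zM (Sum.inl j) = some s' := if_pos rfl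
        rw [h2, Option.bind_some] at hi
        by_cases h3 : s' ∈ v.ring
        · rw [if_pos h3] at hi
          have h4 : v.val s' < 1 := lt_of_le_of_ne h3 fun h => hv ((v.ord_eq_zero_iff hs'0).2 h)
          rw [(v.res_eq_zero_iff h3).2 h4] at hi
          rw [← Option.some_injective _ hi]
          exact zero_mem _
        · rw [if_neg h3] at hi
          exact absurd hi (by simp)
      · by_cases h2 : i = Sum.inr j
        · subst h2
          have h3 : zM (Sum.inr j) = some η' := by
            rw [hzM]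
            unfold movePt
            rw [if_neg (by simp), if_pos rfl]
          rw [h3, Option.bind_some, if_neg hη1] at hi
          exact absurd hi (by simp)
        · have h3 : zM i = (w i).map (algebraMap M₀ M) := by
            rw [hzM]
            unfold movePt
            rw [if_neg h1, if_neg h2]
          rw [h3] at hi
          cases hwi : w i with
          | none =>
            rw [hwi] at hi
            exact absurd hi (by simp)
          | some a =>
            rw [hwi, Option.map_some, Option.bind_some] at hi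
            by_cases h4 : algebraMap M₀ M a ∈ v.ring
            · rw [if_pos h4] at hi
              rw [← Option.some_injective _ hi]
              exact IntermediateField.subset_adjoin _ _ ⟨⟨a, ⟨i, hwi⟩, h4⟩, rfl⟩
            · rw [if_neg h4] at hi
              exact absurd hi (by simp)
    obtain ⟨ρ, h1, h2⟩ := hspec v hv htriv
    rcases lt_or_gt_of_ne hv with h | h
    · left
      rw [hcl2 v ρ (h2 h)]
      exact Submodule.subset_span rfl
    · right
      exact ⟨h, hcl1 v ρ (h1 h)⟩
  · -- the place `s = 0`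
    have hFF : IsFunctionField M₀ M := by
      refine ⟨Algebra.EssFiniteType.of_comp (RatFunc k) _ M, ?_⟩
      have h4 := trdeg_add_eq (RatFunc k) M₀ (A := M)
      rw [hr, htrM, add_comm, add_comm (r : Cardinal) 1] at h4
      exact (Cardinal.add_nat_inj r).1 h4
    obtain ⟨T, hT, h2, h3⟩ := hFF.zeros s' hsT
    have h4 : T.Nonempty := by
      rw [Finset.nonempty_iff_ne_empty]
      rintro rfl
      rw [Finset.sum_empty] at h2
      omega
    obtain ⟨v₀, hv₀⟩ := h4
    have h5 := (hT v₀).1 hv₀
    set v : Place (RatFunc k) M := under (RatFunc k) v₀ with hv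
    have hpos : 0 < v.ord s' := (v.ord_pos_iff hs'0).2 h5
    have htriv : ∀ a : M₀, a ≠ 0 → v.val (algebraMap M₀ M a) = 1 := fun a ha => v₀.triv a ha
    obtain ⟨ρ, h6, -⟩ := hspec v hpos.ne' htriv
    have h7 := h6 hpos
    refine ⟨v, hpos, ?_, ?_, hcl1 v ρ h7⟩
    · rw [h7]
      exact (label_XV_map ρ w).2 hXVw
    · rw [h7, label_trdeg_map ρ w, htrw]

theorem modLabel {k : Type} [Field k] (p : ℕ) [Fact p.Prime] [CharP k p] {n : ℕ} (b : Fin n → k)
    (r : ℕ) (hb : ∀ i, b i ≠ 0) (hPos : ModPos k p b r) : ModLabel k p b r := by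
  intro N _ _ z hz hr j hj
  have hp : 2 ≤ p := (Fact.out : p.Prime).two_le
  -- the coordinate `y j` is infinite
  have hyj : z (Sum.inr j) = none := by
    rcases hz j with ⟨h, -⟩ | ⟨a, c, h1, h2, h3⟩
    · exact h
    · exfalso
      rw [hj] at h1
      rw [← Option.some_injective _ h1, zero_mul, zero_pow two_ne_zero, mul_zero, zero_add] at h3
      exact hb j ((map_eq_zero_iff _ RatFunc.C_injective).1 ((map_eq_zero_iff _
        (algebraMap (RatFunc k) N).injective).1 h3.symm))
  obtain ⟨Ω, _, _, _, _, s, hcl, hs⟩ := label_exists_big (RatFunc k) N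
  set ι : N →ₐ[RatFunc k] Ω := IsScalarTower.toAlgHom (RatFunc k) N Ω with hι
  obtain ⟨η, hη⟩ := label_exists_root hp (algebraMap (RatFunc k) Ω RatFunc.X * s +
    algebraMap (RatFunc k) Ω (RatFunc.C (b j)) * s⁻¹)
  have hs0 : s ≠ 0 := by
    rintro rfl
    exact hs isAlgebraic_zero
  -- the fields
  set S₀ : Set Ω := {a | ∃ i, (z i).map ι = some a} with hS₀
  set S : Set Ω := S₀ ∪ {s} ∪ {η} with hS
  have hf0 : S₀.Finite := by
    have h1 : S₀ ⊆ Set.range fun i => ((z i).map ι).getD 0 := by
      rintro a ⟨i, hi⟩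
      exact ⟨i, by simp only [hi, Option.getD_some]⟩
    exact (Set.finite_range _).subset h1
  have hfS : S.Finite := (hf0.union (Set.finite_singleton s)).union (Set.finite_singleton η)
  have hηalg : IsAlgebraic (IntermediateField.adjoin (RatFunc k) (S₀ ∪ {s})) η := by
    have hsm : s ∈ IntermediateField.adjoin (RatFunc k) (S₀ ∪ {s}) :=
      IntermediateField.subset_adjoin _ _ (Or.inr rfl)
    have hcm : algebraMap (RatFunc k) Ω RatFunc.X * s +
        algebraMap (RatFunc k) Ω (RatFunc.C (b j)) * s⁻¹ ∈
        IntermediateField.adjoin (RatFunc k) (S₀ ∪ {s}) :=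
      add_mem (mul_mem (IntermediateField.algebraMap_mem _ _) hsm)
        (mul_mem (IntermediateField.algebraMap_mem _ _) (inv_mem hsm))
    have hmon : (Polynomial.X ^ p - Polynomial.X -
        Polynomial.C (⟨_, hcm⟩ : IntermediateField.adjoin (RatFunc k) (S₀ ∪ {s}))).Monic := by
      rw [sub_sub]
      refine (Polynomial.monic_X_pow p).sub_of_left ?_
      rw [Polynomial.degree_X_add_C, Polynomial.degree_X_pow]
      exact_mod_cast hp
    refine ⟨_, hmon.ne_zero, ?_⟩
    rw [map_sub, map_sub, map_pow, Polynomial.aeval_X, Polynomial.aeval_C, hη]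
    exact sub_self _
  have htrM : Algebra.trdeg (RatFunc k) (IntermediateField.adjoin (RatFunc k) S) = r + 1 :=
    label_trdeg z hr hs hfS rfl hηalg
  set M := IntermediateField.adjoin (RatFunc k) S with hM
  have hess : Algebra.EssFiniteType (RatFunc k) M :=
    IntermediateField.essFiniteType_iff.2 (IntermediateField.fg_adjoin_of_finite hfS)
  set M₀ := fld (RatFunc k) z with hM₀
  have hle : M₀.map ι ≤ M := by
    have h1 : M₀.map ι = IntermediateField.adjoin (RatFunc k) S₀ := (label_fld_map ι z).symm
    rw [h1]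
    exact IntermediateField.adjoin.mono _ _ _ fun a ha => Or.inl (Or.inl ha)
  let i0 : M₀ →ₐ[RatFunc k] M := (IntermediateField.inclusion hle).comp (M₀.equivMap ι).toAlgHom
  have hi0 : ∀ a : M₀, ((i0 a : M) : Ω) = ι (a : N) := fun a => rfl
  letI : Algebra M₀ M := i0.toRingHom.toAlgebra
  have halg : ∀ a : M₀, algebraMap M₀ M a = i0 a := fun a => rfl
  haveI : IsScalarTower (RatFunc k) M₀ M := IsScalarTower.of_algebraMap_eq fun a =>
    (i0.commutes a).symm
  -- the point over `M₀`
  have hw : ∃ w : Fin n ⊕ Fin n → Option M₀, ∀ i, (w i).map M₀.val = z i := by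
    have h1 : ∀ i, ∃ o : Option M₀, o.map M₀.val = z i := by
      intro i
      cases hi : z i with
      | none => exact ⟨none, rfl⟩
      | some a => exact ⟨some ⟨a, IntermediateField.subset_adjoin _ _ ⟨i, hi⟩⟩, rfl⟩
    choose w hw using h1
    exact ⟨w, hw⟩
  obtain ⟨w, hw⟩ := hw
  have hwinj : ∀ o o' : Option M₀, o.map M₀.val = o'.map M₀.val → o = o' := fun o o' h =>
    Option.map_injective M₀.val.injective h
  have hwl : w (Sum.inl j) = some 0 := hwinj _ _ (by rw [hw, hj]; rfl)
  have hwr : w (Sum.inr j) = none := hwinj _ _ (by rw [hw, hyj]; rfl)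
  have hwz : (fun i => (w i).map M₀.val) = z := funext hw
  have hw₁z : (fun i => (Function.update w (Sum.inl j) none i).map M₀.val) =
      Function.update z (Sum.inl j) none := by
    funext i
    by_cases h : i = Sum.inl j
    · subst h
      rw [Function.update_self, Function.update_self]
      rfl
    · rw [Function.update_of_ne h, Function.update_of_ne h, hw]
  have hXVw : XV p b M₀ w := (label_XV_map M₀.val w).1 (by rw [hwz]; exact hz)
  have hkey : key (RatFunc k) w = key (RatFunc k) z := by
    rw [← label_key_map M₀.val w, hwz]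
  have hkey₁ : key (RatFunc k) (Function.update w (Sum.inl j) none) =
      key (RatFunc k) (Function.update z (Sum.inl j) none) := by
    rw [← label_key_map M₀.val, hw₁z]
  have htrw : Algebra.trdeg (RatFunc k) (fld (RatFunc k) w) = r := by
    rw [← label_trdeg_map M₀.val w, hwz, hr]
  have hsT : Transcendental M₀ (⟨s, IntermediateField.subset_adjoin _ _ (Or.inl (Or.inr rfl))⟩ :
      M) := by
    refine Transcendental.of_ringHom_of_comp_eq (R := M₀) (A := M) (S := N) (B := Ω)
      (f := (M₀.val : M₀ →+* N)) (g := (M.val : M →+* Ω)) hs M₀.val.injective ?_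
    ext a
    rfl
  have hfin := label_core p b r hb hPos hess hr htrM w hXVw htrw j hwl hwr _
    (⟨η, IntermediateField.subset_adjoin _ _ (Or.inr rfl)⟩ : M) hsT (Subtype.ext hη)
  unfold cl cls at hfin ⊢
  rw [hkey, hkey₁] at hfin
  exact hfin

end Pool.Agent.Helper79.KL
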