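import Pool.Agent.Helper79.KL.SmoothDefs

set_option autoImplicit false

/-!
Project KL (MP_0b9e0b_ag), module KL-15: the closure in `P^1 × P^1` of the curve
`y ^ p - y = t x + b / x` is smooth.
-/

namespace Pool.Agent.Helper79.KL

open MvPolynomial
open Pool.Agent.Helper1.KL (Curve)

variable {p : ℕ} {N M : Type} [Field N] [Field M] [Algebra N M] {t b : N}

theorem aeval_eqn (x y : Fin 2 → M) : aeval (Sum.elim x y) (eqn p t b) =
    x 0 * x 1 * (y 1 ^ p - y 1 * y 0 ^ (p - 1)) -
      (algebraMap N M t * x 1 ^ 2 + algebraMap N M b * x 0 ^ 2) * y 0 ^ p := by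
  simp [eqn]

theorem aeval_pderiv_x0 (x y : Fin 2 → M) :
    aeval (Sum.elim x y) (pderiv (Sum.inl 0) (eqn p t b)) =
      x 1 * (y 1 ^ p - y 1 * y 0 ^ (p - 1)) - 2 * (algebraMap N M b * x 0) * y 0 ^ p := by
  simp [eqn, pderiv_X]
  ring

theorem aeval_pderiv_x1 (x y : Fin 2 → M) :
    aeval (Sum.elim x y) (pderiv (Sum.inl 1) (eqn p t b)) =
      x 0 * (y 1 ^ p - y 1 * y 0 ^ (p - 1)) - 2 * (algebraMap N M t * x 1) * y 0 ^ p := by
  simp [eqn, pderiv_X]
  ring

theorem aeval_pderiv_y1 [CharP N p] (x y : Fin 2 → M) :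
    aeval (Sum.elim x y) (pderiv (Sum.inr 1) (eqn p t b)) = - (x 0 * x 1 * y 0 ^ (p - 1)) := by
  simp [eqn, pderiv_X]

theorem curve_iff (hp : p.Prime) (hb : b ≠ 0) (ht : t ≠ 0) {x y : Fin 2 → M} (hx : x ≠ 0)
    (hy : y ≠ 0) : Curve p (algebraMap N M t) (algebraMap N M b) (pt x) (pt y) ↔
      aeval (Sum.elim x y) (eqn p t b) = 0 := by
  rw [aeval_eqn]
  have hb' : algebraMap N M b ≠ 0 := by simpa using hb
  have ht' : algebraMap N M t ≠ 0 := by simpa using ht
  have hp0 : p ≠ 0 := hp.ne_zero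
  have hp1 : p - 1 ≠ 0 := by have := hp.two_le; omega
  have hx01 : x 0 = 0 → x 1 ≠ 0 := by
    intro h0 h1
    exact hx (funext fun i => by fin_cases i <;> simp [h0, h1])
  have hy01 : y 0 = 0 → y 1 ≠ 0 := by
    intro h0 h1
    exact hy (funext fun i => by fin_cases i <;> simp [h0, h1])
  unfold Curve
  by_cases hy0 : y 0 = 0
  · have h1 : pt y = none := if_pos hy0
    have h2 : x 0 * x 1 * (y 1 ^ p - y 1 * y 0 ^ (p - 1)) -
        (algebraMap N M t * x 1 ^ 2 + algebraMap N M b * x 0 ^ 2) * y 0 ^ p =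
        x 0 * x 1 * y 1 ^ p := by
      rw [hy0, zero_pow hp0, zero_pow hp1]
      ring
    rw [h2, mul_eq_zero, mul_eq_zero, pow_eq_zero_iff hp0]
    constructor
    · rintro (⟨-, h3 | h3⟩ | ⟨a, c, -, h3, -⟩)
      · left; left
        by_contra h4
        rw [pt, if_neg h4] at h3
        exact Option.some_ne_none _ h3
      · left; right
        by_cases h4 : x 0 = 0
        · rw [pt, if_pos h4] at h3
          exact absurd h3.symm (Option.some_ne_none _)
        · rw [pt, if_neg h4, Option.some_inj, div_eq_zero_iff] at h3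
          exact h3.resolve_right h4
      · rw [h1] at h3
        exact absurd h3.symm (Option.some_ne_none _)
    · rintro ((h3 | h3) | h3)
      · exact Or.inl ⟨h1, Or.inl (if_pos h3)⟩
      · refine Or.inl ⟨h1, Or.inr ?_⟩
        have h4 : x 0 ≠ 0 := fun h => hx01 h h3
        rw [pt, if_neg h4, h3, zero_div]
      · exact absurd h3 (hy01 hy0)
  · have h1 : pt y = some (y 1 / y 0) := if_neg hy0
    by_cases hx0 : x 0 = 0
    · have h2 : pt x = none := if_pos hx0
      constructor
      · rintro (⟨h3, -⟩ | ⟨a, c, h3, -, -⟩)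
        · rw [h1] at h3
          exact absurd h3 (Option.some_ne_none _)
        · rw [h2] at h3
          exact absurd h3.symm (Option.some_ne_none _)
      · intro h3
        exfalso
        rw [hx0] at h3
        have h4 : algebraMap N M t * x 1 ^ 2 * y 0 ^ p = 0 := by linear_combination -h3
        exact mul_ne_zero (mul_ne_zero ht' (pow_ne_zero _ (hx01 hx0))) (pow_ne_zero _ hy0) h4
    · have h2 : pt x = some (x 1 / x 0) := if_neg hx0
      have h5 : y 0 ^ p = y 0 ^ (p - 1) * y 0 := by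
        rw [← pow_succ]
        congr 1
        omega
      have key : x 0 * x 1 * (y 1 ^ p - y 1 * y 0 ^ (p - 1)) -
          (algebraMap N M t * x 1 ^ 2 + algebraMap N M b * x 0 ^ 2) * y 0 ^ p =
          x 0 ^ 2 * y 0 ^ p * (x 1 / x 0 * ((y 1 / y 0) ^ p - y 1 / y 0) -
            (algebraMap N M t * (x 1 / x 0) ^ 2 + algebraMap N M b)) := by
        rw [div_pow]
        field_simp
        rw [h5]
        ring
      rw [key, mul_eq_zero, or_iff_right (mul_ne_zero (pow_ne_zero _ hx0) (pow_ne_zero _ hy0)),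
        sub_eq_zero]
      constructor
      · rintro (⟨h3, -⟩ | ⟨a, c, h3, h4, h6⟩)
        · rw [h1] at h3
          exact absurd h3 (Option.some_ne_none _)
        · rw [h2, Option.some_inj] at h3
          rw [h1, Option.some_inj] at h4
          rw [h3, h4]
          exact h6
      · intro h3
        exact Or.inr ⟨_, _, h2, h1, h3⟩

theorem smoothCurve (p : ℕ) [Fact p.Prime] {N : Type} [Field N] [CharP N p] {t b : N}
    (ht : t ≠ 0) (hb : b ≠ 0) : SmoothCurve p t b := by
  intro M _ _ x y hx hy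
  have hp : p.Prime := Fact.out
  refine ⟨curve_iff hp hb ht hx hy, fun h => ?_⟩
  have hb' : algebraMap N M b ≠ 0 := by simpa using hb
  have ht' : algebraMap N M t ≠ 0 := by simpa using ht
  have hp0 : p ≠ 0 := hp.ne_zero
  have hp1 : p - 1 ≠ 0 := by have := hp.two_le; omega
  have hx01 : x 0 = 0 → x 1 ≠ 0 := by
    intro h0 h1
    exact hx (funext fun i => by fin_cases i <;> simp [h0, h1])
  have hy01 : y 0 = 0 → y 1 ≠ 0 := by
    intro h0 h1
    exact hy (funext fun i => by fin_cases i <;> simp [h0, h1])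
  by_cases hy0 : y 0 = 0
  · by_cases hx0 : x 0 = 0
    · refine ⟨Sum.inl 0, ?_⟩
      rw [aeval_pderiv_x0, hy0, zero_pow hp0, zero_pow hp1, mul_zero, sub_zero, mul_zero, sub_zero]
      exact mul_ne_zero (hx01 hx0) (pow_ne_zero _ (hy01 hy0))
    · refine ⟨Sum.inl 1, ?_⟩
      rw [aeval_pderiv_x1, hy0, zero_pow hp0, zero_pow hp1, mul_zero, sub_zero, mul_zero, sub_zero]
      exact mul_ne_zero hx0 (pow_ne_zero _ (hy01 hy0))
  · rw [aeval_eqn] at h
    refine ⟨Sum.inr 1, ?_⟩
    rw [aeval_pderiv_y1]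
    refine neg_ne_zero.2 (mul_ne_zero (mul_ne_zero ?_ ?_) (pow_ne_zero _ hy0))
    · intro h0
      rw [h0] at h
      have h4 : algebraMap N M t * x 1 ^ 2 * y 0 ^ p = 0 := by linear_combination -h
      exact mul_ne_zero (mul_ne_zero ht' (pow_ne_zero _ (hx01 h0))) (pow_ne_zero _ hy0) h4
    · intro h1
      rw [h1] at h
      have h4 : algebraMap N M b * x 0 ^ 2 * y 0 ^ p = 0 := by linear_combination -h
      have h5 : x 0 ≠ 0 := fun h0 => hx01 h0 h1
      exact mul_ne_zero (mul_ne_zero hb' (pow_ne_zero _ h5)) (pow_ne_zero _ hy0) h4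

/-- The curves of the product `XV p b`. -/
theorem smoothCurve_ratFunc (p : ℕ) [Fact p.Prime] {k : Type} [Field k] [CharP k p] {b : k}
    (hb : b ≠ 0) : SmoothCurve p (RatFunc.X : RatFunc k) (RatFunc.C b) := by
  have : CharP (RatFunc k) p :=
    charP_of_injective_algebraMap (algebraMap k (RatFunc k)).injective p
  exact smoothCurve p RatFunc.X_ne_zero (by simpa using hb)

end Pool.Agent.Helper79.KL
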