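import Pool.Agent.Helper1.KL.Stmts
import Pool.Agent.HC.Abh
import Pool.Agent.HC.Tdeg

set_option autoImplicit false

/-!
Project KL (MP_0b9e0b_ag), module KL-11: the labels `x j = 0` and `x j = ∞`.
-/

namespace Pool.Agent.Helper79.KL

open Pool.Agent.Helper16 Pool.Agent.Helper1.KL Pool.Agent.HC

/-! ### Images of points -/

section general

variable {F σ N N' : Type} [Field F] [Field N] [Field N'] [Algebra F N] [Algebra F N']

theorem label_key_map (φ : N →ₐ[F] N') (z : σ → Option N) :
    key F (fun i => (z i).map φ) = key F z := by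
  unfold key
  refine Prod.ext ?_ ?_
  · ext i
    simp
  · have h : (fun j => ((z j).map φ).getD 0) = fun j => φ ((z j).getD 0) := by
      funext j
      cases z j <;> simp
    simp only [h]
    ext P
    rw [RingHom.mem_ker, RingHom.mem_ker]
    have h2 : MvPolynomial.aeval (fun j => φ ((z j).getD 0)) P =
        φ (MvPolynomial.aeval (fun j => (z j).getD 0) P) := by
      rw [← AlgHom.comp_apply, MvPolynomial.comp_aeval]
    rw [h2, map_eq_zero_iff φ φ.injective]

theorem label_fld_map (φ : N →ₐ[F] N') (z : σ → Option N) :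
    fld F (fun i => (z i).map φ) = (fld F z).map φ := by
  unfold fld
  rw [IntermediateField.adjoin_map]
  congr 1
  ext a
  constructor
  · rintro ⟨j, hj⟩
    obtain ⟨c, hc, rfl⟩ := Option.map_eq_some_iff.1 hj
    exact ⟨c, ⟨j, hc⟩, rfl⟩
  · rintro ⟨c, ⟨j, hj⟩, rfl⟩
    exact ⟨j, by simp [hj]⟩

theorem label_trdeg_map (φ : N →ₐ[F] N') (z : σ → Option N) :
    Algebra.trdeg F (fld F (fun i => (z i).map φ)) = Algebra.trdeg F (fld F z) := by
  rw [label_fld_map]
  exact (IntermediateField.equivMap (fld F z) φ).symm.trdeg_eq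

theorem label_curve {p : ℕ} (φ : N →+* N') (t b : N) (x y : Option N) :
    Curve p (φ t) (φ b) (x.map φ) (y.map φ) ↔ Curve p t b x y := by
  unfold Curve
  constructor
  · rintro (⟨hy, hx⟩ | ⟨a, c, hx, hy, h⟩)
    · left
      refine ⟨by simpa using hy, ?_⟩
      rcases hx with hx | hx
      · left
        simpa using hx
      · right
        obtain ⟨a, ha, h0⟩ := Option.map_eq_some_iff.1 hx
        rw [ha, (map_eq_zero_iff φ φ.injective).1 h0]
    · right
      obtain ⟨a', ha, rfl⟩ := Option.map_eq_some_iff.1 hx
      obtain ⟨c', hc, rfl⟩ := Option.map_eq_some_iff.1 hy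
      refine ⟨a', c', ha, hc, φ.injective ?_⟩
      simpa only [map_mul, map_sub, map_pow, map_add] using h
  · rintro (⟨hy, hx⟩ | ⟨a, c, hx, hy, h⟩)
    · left
      refine ⟨by rw [hy]; rfl, ?_⟩
      rcases hx with hx | hx
      · left
        rw [hx]
        rfl
      · right
        rw [hx, Option.map_some, map_zero]
    · right
      refine ⟨φ a, φ c, by rw [hx]; rfl, by rw [hy]; rfl, ?_⟩
      rw [← map_pow, ← map_sub, ← map_mul, h, map_add, map_mul, map_pow]

end general

section xv

variable {k : Type} [Field k] {p n : ℕ} {b : Fin n → k} {N N' : Type} [Field N] [Field N']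
  [Algebra (RatFunc k) N] [Algebra (RatFunc k) N']

theorem label_XV_map (φ : N →ₐ[RatFunc k] N') (z : Fin n ⊕ Fin n → Option N) :
    XV p b N' (fun i => (z i).map φ) ↔ XV p b N z := by
  refine forall_congr' fun i => ?_
  have h := label_curve (p := p) (φ : N →+* N') (algebraMap (RatFunc k) N RatFunc.X)
    (algebraMap (RatFunc k) N (RatFunc.C (b i))) (z (Sum.inl i)) (z (Sum.inr i))
  rw [← h]
  simp only [RingHom.coe_coe, AlgHom.commutes]

end xv

/-- The sum over the trivial group is the class. -/
theorem label_SH {k : Type} [Field k] {p n : ℕ} [NeZero p] {b : Fin n → k} {r : ℕ} {N : Type}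
    [Field N] [Algebra (RatFunc k) N] (z : Fin n ⊕ Fin n → Option N) :
    SH p b r {0} z = cl p b r z := by
  unfold SH
  rw [Finset.sum_singleton]
  congr 1
  funext i
  rcases i with i | i
  · rfl
  · change (z (Sum.inr i)).map (fun c => c + ((0 : Fin n → ZMod p) i).cast) = z (Sum.inr i)
    have h : (fun c : N => c + ((0 : Fin n → ZMod p) i).cast) = id := by
      funext c
      simp
    rw [h, Option.map_id, id]

/-- A large field with a transcendental element. -/
theorem label_exists_big (F N : Type) [Field F] [Field N] [Algebra F N] :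
    ∃ (Ω : Type) (_ : Field Ω) (_ : Algebra F Ω) (_ : Algebra N Ω) (_ : IsScalarTower F N Ω)
      (s : Ω), IsAlgClosed Ω ∧ Transcendental N s := by
  letI : Algebra F (AlgebraicClosure (RatFunc N)) :=
    ((algebraMap N (AlgebraicClosure (RatFunc N))).comp (algebraMap F N)).toAlgebra
  refine ⟨AlgebraicClosure (RatFunc N), inferInstance, this, inferInstance,
    IsScalarTower.of_algebraMap_eq fun _ => rfl, algebraMap (RatFunc N) _ RatFunc.X,
    inferInstance, ?_⟩
  have h := (RatFunc.transcendental_X (K := N))
  exact (transcendental_algebraMap_iff (algebraMap (RatFunc N)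
    (AlgebraicClosure (RatFunc N))).injective).2 h

/-- Artin-Schreier equations have solutions. -/
theorem label_exists_root {Ω : Type} [Field Ω] [IsAlgClosed Ω] {p : ℕ} (hp : 2 ≤ p) (c : Ω) :
    ∃ η : Ω, η ^ p - η = c := by
  have h1 : (Polynomial.X ^ p - Polynomial.X - Polynomial.C c : Polynomial Ω).degree = p := by
    have h2 : (Polynomial.X + Polynomial.C c : Polynomial Ω).degree < p := by
      rw [Polynomial.degree_X_add_C]
      exact_mod_cast hp
    rw [sub_sub, Polynomial.degree_sub_eq_left_of_degree_lt]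
    · rw [Polynomial.degree_X_pow]
    · rwa [Polynomial.degree_X_pow]
  obtain ⟨η, hη⟩ := IsAlgClosed.exists_root (Polynomial.X ^ p - Polynomial.X - Polynomial.C c)
    (by
      rw [h1]
      have : (p : WithBot ℕ) ≠ ((0 : ℕ) : WithBot ℕ) := by
        exact_mod_cast (by omega : p ≠ 0)
      exact this)
  refine ⟨η, ?_⟩
  have h3 : η ^ p - η - c = 0 := by
    simpa [Polynomial.IsRoot] using hη
  exact sub_eq_zero.1 h3

/-! ### Places which are trivial on a subfield -/

section places

variable {F M M₀ : Type} [Field F] [Field M] [Field M₀] [Algebra F M] [Algebra F M₀]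
  [Algebra M₀ M] [IsScalarTower F M₀ M]

theorem label_triv (v : Place F M) {r : ℕ} (h0 : Algebra.trdeg F M₀ = r) {ι : Type} (z : ι → M₀)
    (hz : ∀ i, v.val (algebraMap M₀ M (z i)) ≤ 1)
    (h : (r : Cardinal) ≤ Algebra.trdeg F (IntermediateField.adjoin F
      (Set.range fun i => v.res (algebraMap M₀ M (z i))))) (a : M₀) (ha : a ≠ 0) :
    v.val (algebraMap M₀ M a) = 1 := by
  by_contra hne
  rcases r with _ | r
  · have h1 : Algebra.IsAlgebraic F M₀ := trdeg_eq_zero_iff.1 (by simpa using h0)
    exact hne (v.val_eq_one_of_algebraic ((Algebra.IsAlgebraic.isAlgebraic (R := F) a).algebraMap)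
      (by simpa using ha))
  · have h1 := abh_adjoin (k₀ := F) v (M := M₀) (s := r) (by rw [h0]; push_cast; exact le_refl _)
      ⟨a, ha, hne⟩ z hz
    have h2 := h.trans h1
    rw [Nat.cast_le] at h2
    omega

theorem label_resHom (v : Place F M) (hv : ∀ a : M₀, a ≠ 0 → v.val (algebraMap M₀ M a) = 1) :
    ∃ ρ : M₀ →ₐ[F] v.resField, ∀ a, algebraMap M₀ M a ∈ v.ring ∧
      ρ a = v.res (algebraMap M₀ M a) := by
  have hring : ∀ a : M₀, algebraMap M₀ M a ∈ v.ring := by
    intro a
    by_cases h : a = 0
    · rw [h, map_zero]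
      exact zero_mem _
    · rw [v.mem_ring, hv a h]
  refine ⟨{ toFun := fun a => v.res (algebraMap M₀ M a)
            map_one' := by rw [map_one, v.res_one]
            map_zero' := by rw [map_zero, v.res_zero]
            map_mul' := fun a b => by rw [map_mul, v.res_mul (hring a) (hring b)]
            map_add' := fun a b => by rw [map_add, v.res_add (hring a) (hring b)]
            commutes' := fun a => ?_ }, fun a => ⟨hring a, rfl⟩⟩
  change v.res (algebraMap M₀ M (algebraMap F M₀ a)) = _
  rw [← IsScalarTower.algebraMap_apply, v.res_algebraMap]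

end places

/-! ### The function field of the moving point -/

/-- Adjoining a transcendental element and an element algebraic over the result. -/
theorem label_trdeg {F N Ω : Type} [Field F] [Field N] [Field Ω] [Algebra F N] [Algebra F Ω]
    [Algebra N Ω] [IsScalarTower F N Ω] {σ : Type} [Finite σ] (z : σ → Option N) {r : ℕ}
    (hr : Algebra.trdeg F (fld F z) = r) {s η : Ω} (hs : Transcendental N s) {S : Set Ω}
    (hSf : S.Finite) (hS : IntermediateField.adjoin F S = IntermediateField.adjoin F
      ({a | ∃ i, (z i).map (IsScalarTower.toAlgHom F N Ω) = some a} ∪ {s} ∪ {η}))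
    (hη : IsAlgebraic (IntermediateField.adjoin F
      ({a | ∃ i, (z i).map (IsScalarTower.toAlgHom F N Ω) = some a} ∪ {s})) η) :
    Algebra.trdeg F (IntermediateField.adjoin F S) = r + 1 := by
  set ι : N →ₐ[F] Ω := IsScalarTower.toAlgHom F N Ω with hι
  set S₀ : Set Ω := {a | ∃ i, (z i).map ι = some a} with hS₀
  have h0 : IntermediateField.adjoin F S₀ = (fld F z).map ι := label_fld_map ι z
  have hf0 : S₀.Finite := by
    have h1 : S₀ ⊆ Set.range fun i => ((z i).map ι).getD 0 := by
      rintro a ⟨i, hi⟩
      exact ⟨i, by simp only [hi, Option.getD_some]⟩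
    exact (Set.finite_range _).subset h1
  have h1 : tdeg F S₀ = r := by
    rw [tdeg_eq_iff hf0, ← hr]
    exact label_trdeg_map ι z
  have h2 : Transcendental (IntermediateField.adjoin F S₀) s := by
    rw [h0]
    let f : (fld F z).map ι →+* N :=
      ((fld F z).val.comp ((fld F z).equivMap ι).symm.toAlgHom : (fld F z).map ι →ₐ[F] N)
    have hf : ∀ a, algebraMap N Ω (f a) = (a : Ω) := by
      intro a
      obtain ⟨c, rfl⟩ := ((fld F z).equivMap ι).surjective a
      change ι ((((fld F z).equivMap ι).symm (((fld F z).equivMap ι) c) : fld F z) : N) = _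
      rw [AlgEquiv.symm_apply_apply]
      rfl
    exact Transcendental.of_ringHom_of_comp_eq (f := f) (g := RingHom.id Ω) hs f.injective
      (RingHom.ext hf)
  have h3 : tdeg F (S₀ ∪ {s}) = r + 1 := by
    have := tdeg_insert_of_transcendental hf0 h2
    rw [Set.union_singleton, this, h1]
  have h4 : tdeg F (S₀ ∪ {s} ∪ {η}) = r + 1 := by
    rw [tdeg_union_of_algebraic (hf0.union (Set.finite_singleton s)) (Set.finite_singleton η), h3]
    intro a ha
    rw [Set.mem_singleton_iff.1 ha]
    exact hη
  have h5 := tdeg_spec (K := F) ((hf0.union (Set.finite_singleton s)).union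
    (Set.finite_singleton η))
  rw [hS, h5, h4]
  push_cast
  rfl

end Pool.Agent.Helper79.KL
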