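import Pool.Agent.Helper1.KL.Defs
import Mathlib.Algebra.MvPolynomial.PDeriv

set_option autoImplicit false

/-!
Project KL (MP_0b9e0b_ag), module KL-15: the bihomogeneous equation of the closure in
`P^1 × P^1` of the curve `y ^ p - y = t x + b / x`, and what it means that it is smooth.
-/

namespace Pool.Agent.Helper79.KL

open MvPolynomial
open Pool.Agent.Helper1.KL (Curve)

/-- The form `x₀ x₁ (y₁ ^ p - y₁ y₀ ^ (p - 1)) - (t x₁ ^ 2 + b x₀ ^ 2) y₀ ^ p` of bidegree
`(2, p)`; `x₀, x₁` are the variables `Sum.inl 0, Sum.inl 1`, and `y₀, y₁` are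
`Sum.inr 0, Sum.inr 1`. -/
noncomputable def eqn (p : ℕ) {N : Type} [Field N] (t b : N) : MvPolynomial (Fin 2 ⊕ Fin 2) N :=
  X (Sum.inl 0) * X (Sum.inl 1) *
      (X (Sum.inr 1) ^ p - X (Sum.inr 1) * X (Sum.inr 0) ^ (p - 1)) -
    (C t * X (Sum.inl 1) ^ 2 + C b * X (Sum.inl 0) ^ 2) * X (Sum.inr 0) ^ p

open scoped Classical in
/-- The point of the projective line `N ∪ {∞}` with the homogeneous coordinates `x 0, x 1`. -/
noncomputable def pt {N : Type} [Field N] (x : Fin 2 → N) : Option N :=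
  if x 0 = 0 then none else some (x 1 / x 0)

/-- `Curve p t b` is the curve in `P^1 × P^1` with the equation `eqn p t b`, and at every point
of it (over every extension field) some derivative of `eqn p t b` is not zero: it is a smooth
curve. -/
def SmoothCurve (p : ℕ) {N : Type} [Field N] (t b : N) : Prop :=
  ∀ (M : Type) [Field M] [Algebra N M] (x y : Fin 2 → M), x ≠ 0 → y ≠ 0 →
    (Curve p (algebraMap N M t) (algebraMap N M b) (pt x) (pt y) ↔
      aeval (Sum.elim x y) (eqn p t b) = 0) ∧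
    (aeval (Sum.elim x y) (eqn p t b) = 0 →
      ∃ j, aeval (Sum.elim x y) (pderiv j (eqn p t b)) ≠ 0)

end Pool.Agent.Helper79.KL
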